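import Mathlib
import Pool.Agent.R192.LM.Main

/-!
# Equivalent multilinear Lie monomial identities: the structures agree up to light exchanges

For bracket structures `s`, `t` of the same degree, over any field: if the identities `w_s = 0` and
`w_t = 0` are equivalent then `t` is obtained from `s` by swapping branches (`uv = vu`) and by
exchanges `(ab)c = (ac)b` in which neither `b` nor `c` has more letters than `a`.
-/

set_option autoImplicit false

universe u

namespace Pool.Agent.Results.MP_5ecbac_al.HeavyPaths

/-- Bracket structures: full binary bracketings of a word `x_1 x_2 ... x_n`. -/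
inductive Br : Type
  | leaf : Br
  | node : Br → Br → Br

namespace Br

/-- The degree (number of letters). -/
def deg : Br → ℕ
  | leaf => 1
  | node l r => deg l + deg r

/-- The multilinear Lie monomial `w_s` evaluated at `x 0, x 1, ..., x (deg s - 1)`. -/
def ev {A : Type*} [Bracket A A] : Br → (ℕ → A) → A
  | leaf, x => x 0
  | node l r, x => ⁅ev l x, ev r (fun i => x (i + deg l))⁆

end Br

/-- The identity `w_s = 0` holds in `A`. -/
def Holds (A : Type*) [LieRing A] (s : Br) : Prop := ∀ x : ℕ → A, s.ev x = 0

/-- The identities `w_s = 0` and `w_t = 0` hold in exactly the same Lie algebras over `K`. -/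
def EquivId (K : Type u) [Field K] (s t : Br) : Prop :=
  ∀ (A : Type u) [LieRing A] [LieAlgebra K A], Holds A s ↔ Holds A t

/-- The equivalence relation on bracket structures generated, inside any bracket structure, by
`uv = vu` and by the exchanges `(ab)c = (ac)b` in which `b` and `c` have at most as many letters
as `a`. -/
inductive Exch : Br → Br → Prop
  | refl (s : Br) : Exch s s
  | symm {s t : Br} : Exch s t → Exch t s
  | trans {s t r : Br} : Exch s t → Exch t r → Exch s r
  | comm (s t : Br) : Exch (.node s t) (.node t s)
  | congr {s s' t t' : Br} : Exch s s' → Exch t t' → Exch (.node s t) (.node s' t')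
  | exch (a b c : Br) : b.deg ≤ a.deg → c.deg ≤ a.deg →
      Exch (.node (.node a b) c) (.node (.node a c) b)

open Pool.Agent.R192

/-- translation to the helper files -/
def conv : Br → LM.Br
  | .leaf => .leaf
  | .node l r => .node (conv l) (conv r)

/-- translation from the helper files -/
def vnoc : LM.Br → Br
  | .leaf => .leaf
  | .node l r => .node (vnoc l) (vnoc r)

lemma vnoc_conv (s : Br) : vnoc (conv s) = s := by
  induction s with
  | leaf => rfl
  | node l r hl hr => simp only [conv, vnoc, hl, hr]

lemma deg_conv (s : Br) : (conv s).deg = s.deg := by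
  induction s with
  | leaf => rfl
  | node l r hl hr => simp only [conv, LM.Br.deg, Br.deg, hl, hr]

lemma deg_vnoc (s : LM.Br) : (vnoc s).deg = s.deg := by
  induction s with
  | leaf => rfl
  | node l r hl hr => simp only [vnoc, LM.Br.deg, Br.deg, hl, hr]

lemma ev_conv {A : Type*} [Bracket A A] (s : Br) : ∀ x : ℕ → A, (conv s).ev x = s.ev x := by
  induction s with
  | leaf => intro x; rfl
  | node l r hl hr => intro x; simp only [conv, LM.Br.ev, Br.ev, hl, hr, deg_conv]

lemma holds_conv (A : Type*) [LieRing A] (s : Br) : LM.Holds A (conv s) ↔ Holds A s := by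
  simp only [LM.Holds, Holds, ev_conv]

lemma exch_of {s t : LM.Br} (h : LM.Ex s t) : Exch (vnoc s) (vnoc t) := by
  induction h with
  | refl s => exact Exch.refl _
  | symm _ ih => exact ih.symm
  | trans _ _ ih1 ih2 => exact ih1.trans ih2
  | comm s t => exact Exch.comm _ _
  | congr _ _ ih1 ih2 => exact Exch.congr ih1 ih2
  | exch a b c h1 h2 =>
    exact Exch.exch _ _ _ (by rw [deg_vnoc, deg_vnoc]; exact h1) (by rw [deg_vnoc, deg_vnoc]; exact h2)

/-- If two multilinear Lie monomial identities of the same degree are equivalent, over any field,
then their bracket structures agree up to `uv = vu` and exchanges `(ab)c = (ac)b` with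
`deg b, deg c ≤ deg a`. -/
theorem result (K : Type u) [Field K] (s t : Br) (hd : s.deg = t.deg) (h : EquivId K s t) :
    Exch s t := by
  have h1 : LM.EquivId K (conv s) (conv t) := by
    intro A _ _
    rw [holds_conv, holds_conv]
    exact h A
  have h2 := exch_of (LM.ex_of_equiv K h1 (by rw [deg_conv, deg_conv, hd]))
  rw [vnoc_conv, vnoc_conv] at h2
  exact h2

end Pool.Agent.Results.MP_5ecbac_al.HeavyPaths
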