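import Pool.Agent.R325.BH.TREE3
import Pool.Agent.R325.BH.SLP
import Pool.Agent.R325.BH.ROOT
import Pool.Agent.R325.BH.KIL
import Pool.Agent.R325.BH.PAIR
import Pool.Agent.R325.BH.NEQ2
import Pool.Agent.R325.BH.NV
import Pool.Agent.R325.BH.NM
import Pool.Agent.R325.BH.MSK

/-!
Bahturin's question (MP_5ecbac_al): positive answer for all bracket structures without an
exceptional node in the structure and its iterated skeletons.
-/

set_option linter.all false
universe u
namespace Pool.Agent.Results.MP_5ecbac_al.NoExceptionalNode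

open Pool.Agent.Results.MP_5ecbac_al
open ThreeCherries ThreeCherries.Br Skeleton
open Pool.Agent.R325.BH

/-- `(P, Q)` is exceptional: `Q` has at least two cherries, fewer than `P`, both have the same ratio
of letters to cherries, and `Q` is not a structure all of whose letters lie in cherries. -/
def Exc (P Q : Br) : Prop := 2 ≤ Q.cherries ∧ Q.cherries < P.cherries ∧
  P.deg * Q.cherries = Q.deg * P.cherries ∧ 2 * Q.cherries < Q.deg

/-- no node is exceptional -/
def NoExc : Br → Prop
  | leaf => True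
  | node P Q => NoExc P ∧ NoExc Q ∧ ¬ Exc P Q ∧ ¬ Exc Q P

/-- The class `Cl` of bracket structures:
* all structures obtained from some `κ` by replacing every letter by a cherry;
* `A x` and `x A`, if `A` is in `Cl`;
* `A B` and `B A`, if `A` is in `Cl` and `B` has exactly one cherry. -/
inductive Cl : Br → Prop
  | dbl (κ : Br) : Cl (dbl κ)
  | letter {A : Br} : Cl A → A ≠ leaf → Cl (node A leaf)
  | cherry {A B : Br} : Cl A → A ≠ leaf → B.cherries = 1 → Cl (node A B)
  | comm {A B : Br} : Cl (node A B) → Cl (node B A)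

lemma cls_of {s : Br} (h : Cl s) : Cls s := by
  induction h with
  | dbl κ => exact Cls.dbl κ
  | letter _ h ih => exact Cls.pend ih h
  | cherry _ h h' ih => exact Cls.cat ih h h'
  | comm _ ih => exact Cls.comm ih

lemma ar (p q a b : ℕ) (hp : 2 ≤ p) (h1 : p < q) (ha : 2 * p ≤ a) (h : b * p = a * q)
    (hn : ¬ (2 ≤ p ∧ p < q ∧ b * p = a * q ∧ 2 * p < a)) : a = 2 * p ∧ b = 2 * q := by
  have h2 : ¬ (2 * p < a) := fun h2 => hn ⟨hp, h1, h, h2⟩
  have h3 : a = 2 * p := by omega
  refine ⟨h3, ?_⟩
  subst h3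
  have h4 : b * p = (2 * q) * p := by rw [h]; ring
  exact Nat.eq_of_mul_eq_mul_right (by omega) h4

lemma nc_of (P Q : Br) (hP : P ≠ leaf) (hQ : Q ≠ leaf) (h1 : ¬ Exc P Q) (h2 : ¬ Exc Q P) :
    NC P Q := by
  have p1 := deg_sk_eq P hP
  have q1 := deg_sk_eq Q hQ
  have p2 := ThreeCherries.deg_pos (sk P)
  have q2 := ThreeCherries.deg_pos (sk Q)
  have p3 := (deg_sk P hP).1
  have q3 := (deg_sk Q hQ).1
  by_cases c1 : P.cherries = 1
  · exact Or.inl c1
  by_cases c2 : Q.cherries = 1
  · exact Or.inr (Or.inl c2)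
  by_cases c3 : P.cherries = Q.cherries
  · exact Or.inr (Or.inr (Or.inl c3))
  by_cases c4 : P.deg * Q.cherries = Q.deg * P.cherries
  · right; right; right; right
    rcases Nat.lt_or_gt_of_ne c3 with hlt | hgt
    · exact ar P.cherries Q.cherries P.deg Q.deg (by omega) hlt (by omega) c4.symm h2
    · exact (ar Q.cherries P.cherries Q.deg P.deg (by omega) hgt (by omega) c4 h1).symm
  · exact Or.inr (Or.inr (Or.inr (Or.inl c4)))

lemma ok_of : ∀ s : Br, NoExc s → Ok s
  | leaf, _ => trivial
  | node P Q, h => by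
    refine ⟨ok_of P h.1, ok_of Q h.2.1, ?_⟩
    by_cases hP : P = leaf
    · exact Or.inl hP
    by_cases hQ : Q = leaf
    · exact Or.inr (Or.inl hQ)
    exact Or.inr (Or.inr (nc_of P Q hP hQ h.2.2.1 h.2.2.2))

lemma hyp : Hyp.{u} := by
  intro L _
  have hM := MUL L
  have hD := DL L
  have hL := LD L hD
  have hB := BAS L hM hD hL
  exact ⟨PAIR L hM, KIL L hM hD, ROOT L hM, SLP L hM hD hB hL, NM L hM hD hB (NV L hM),
    MSK L hM hD hB⟩

/-- **Theorem.** Let `K` be any field.
(1) Bahturin's question has a positive answer for all bracket structures `s` such that neither `s`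
nor any of its iterated skeletons has an exceptional node, and arbitrary `t`.
(2) If it has a positive answer for the skeleton of `s` and `s` is in the class `Cl`, then it has a
positive answer for `s`. -/
theorem result (K : Type u) [Field K] :
    (∀ s : Br, (∀ j : ℕ, NoExc (sk^[j] s)) → ∀ t : Br, (EquivId K s t ↔ CEq s t)) ∧
    (∀ s : Br, s ≠ leaf → Cl s → (∀ t : Br, (EquivId K (sk s) t ↔ CEq (sk s) t)) →
      ∀ t : Br, (EquivId K s t ↔ CEq s t)) := by
  refine ⟨fun s hs t => ⟨fun h => ?_, holds_of_CEq⟩, fun s hs hc hg t => ⟨fun h => ?_, holds_of_CEq⟩⟩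
  · exact (main3 hyp.{u} s.deg s le_rfl (fun j => ok_of _ (hs j))).2 K t (deg_eq K s t h)
      (NEQ2 K s t h)
  · exact good_of_PT K s hs (all_PT K s (cls_of hc) hs) (fun t ht => (hg t).1 ht) t h

end Pool.Agent.Results.MP_5ecbac_al.NoExceptionalNode
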