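import Mathlib
import Pool.Agent.R192.LM.Root

/-!
# Equivalent multilinear Lie monomial identities: the degrees of the two factors at the root

For bracket structures `ab`, `cd` of the same degree, over any field: if the identities
`[w_a, w_b] = 0` and `[w_c, w_d] = 0` are equivalent then `{deg a, deg b} = {deg c, deg d}`.
-/

set_option autoImplicit false

universe u

namespace Pool.Agent.Results.MP_5ecbac_al.RootDegrees

/-- Bracket structures: full binary bracketings of a word `x_1 x_2 ... x_n`. -/
inductive Br : Type
  | leaf : Br
  | node : Br → Br → Br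

namespace Br

/-- The degree (number of letters). -/
def deg : Br → ℕ
  | leaf => 1
  | node l r => deg l + deg r

/-- The multilinear Lie monomial `w_s` evaluated at `x 0, x 1, ..., x (deg s - 1)`. -/
def ev {A : Type*} [Bracket A A] : Br → (ℕ → A) → A
  | leaf, x => x 0
  | node l r, x => ⁅ev l x, ev r (fun i => x (i + deg l))⁆

end Br

/-- The identity `w_s = 0` holds in `A`. -/
def Holds (A : Type*) [LieRing A] (s : Br) : Prop := ∀ x : ℕ → A, s.ev x = 0

/-- The identities `w_s = 0` and `w_t = 0` hold in exactly the same Lie algebras over `K`. -/
def EquivId (K : Type u) [Field K] (s t : Br) : Prop :=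
  ∀ (A : Type u) [LieRing A] [LieAlgebra K A], Holds A s ↔ Holds A t

open Pool.Agent.R192

/-- translation to the helper files -/
def conv : Br → LM.Br
  | .leaf => .leaf
  | .node l r => .node (conv l) (conv r)

/-- translation from the helper files -/
def vnoc : LM.Br → Br
  | .leaf => .leaf
  | .node l r => .node (vnoc l) (vnoc r)

lemma vnoc_conv (s : Br) : vnoc (conv s) = s := by
  induction s with
  | leaf => rfl
  | node l r hl hr => simp only [conv, vnoc, hl, hr]

lemma deg_conv (s : Br) : (conv s).deg = s.deg := by
  induction s with
  | leaf => rfl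
  | node l r hl hr => simp only [conv, LM.Br.deg, Br.deg, hl, hr]

lemma deg_vnoc (s : LM.Br) : (vnoc s).deg = s.deg := by
  induction s with
  | leaf => rfl
  | node l r hl hr => simp only [vnoc, LM.Br.deg, Br.deg, hl, hr]

lemma ev_conv {A : Type*} [Bracket A A] (s : Br) : ∀ x : ℕ → A, (conv s).ev x = s.ev x := by
  induction s with
  | leaf => intro x; rfl
  | node l r hl hr => intro x; simp only [conv, LM.Br.ev, Br.ev, hl, hr, deg_conv]

lemma holds_conv (A : Type*) [LieRing A] (s : Br) : LM.Holds A (conv s) ↔ Holds A s := by
  simp only [LM.Holds, Holds, ev_conv]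

/-- If the multilinear Lie monomial identities of the bracket structures `node a b` and `node c d`,
of the same degree, are equivalent over the field `K`, then the two factors at the root have the
same degrees. -/
theorem result (K : Type u) [Field K] (a b c d : Br) (hd : (Br.node a b).deg = (Br.node c d).deg)
    (h : EquivId K (Br.node a b) (Br.node c d)) :
    (a.deg = c.deg ∧ b.deg = d.deg) ∨ (a.deg = d.deg ∧ b.deg = c.deg) := by
  have h1 : LM.EquivId K (.node (conv a) (conv b)) (.node (conv c) (conv d)) := by
    intro A _ _
    have e1 := holds_conv A (Br.node a b)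
    have e2 := holds_conv A (Br.node c d)
    simp only [conv] at e1 e2
    rw [e1, e2]
    exact h A
  have h2 := LM.root_deg K h1 (by
    have e1 := deg_conv (Br.node a b)
    have e2 := deg_conv (Br.node c d)
    simp only [conv] at e1 e2
    rw [e1, e2, hd])
  rw [deg_conv, deg_conv, deg_conv, deg_conv] at h2
  exact h2

end Pool.Agent.Results.MP_5ecbac_al.RootDegrees
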