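import Mathlib
import Pool.Agent.R192.LM.Light

/-!
# Bahturin's question for a recursively defined class of bracket structures

The class `Settled` contains every structure `s` that is commutatively equal to each structure
obtained from it by light exchanges `(ab)c = (ac)b` (`deg b, deg c ≤ deg a`) with the same degrees
of the two factors at the root, and it is closed under products of two structures of equal degree,
and under products `ab` with `a` determined by light exchanges, `b` in the class, `deg b < deg a`,
when no node of `a` has a lighter branch with exactly `deg b` letters.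
For `s` in this class and any `t` of the same degree, over any field, if `w_s = 0` and `w_t = 0`
are equivalent then `s` and `t` are commutatively equal.
-/

set_option autoImplicit false

universe u

namespace Pool.Agent.Results.MP_5ecbac_al.ZSettledClass

/-- Bracket structures: full binary bracketings of a word `x_1 x_2 ... x_n`. -/
inductive Br : Type
  | leaf : Br
  | node : Br → Br → Br

namespace Br

/-- The degree (number of letters). -/
def deg : Br → ℕ
  | leaf => 1
  | node l r => deg l + deg r

/-- The multilinear Lie monomial `w_s` evaluated at `x 0, x 1, ..., x (deg s - 1)`. -/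
def ev {A : Type*} [Bracket A A] : Br → (ℕ → A) → A
  | leaf, x => x 0
  | node l r, x => ⁅ev l x, ev r (fun i => x (i + deg l))⁆

end Br

/-- The identity `w_s = 0` holds in `A`. -/
def Holds (A : Type*) [LieRing A] (s : Br) : Prop := ∀ x : ℕ → A, s.ev x = 0

/-- The identities `w_s = 0` and `w_t = 0` hold in exactly the same Lie algebras over `K`. -/
def EquivId (K : Type u) [Field K] (s t : Br) : Prop :=
  ∀ (A : Type u) [LieRing A] [LieAlgebra K A], Holds A s ↔ Holds A t

/-- Equality in the free commutative groupoid on one letter. -/
inductive CEq : Br → Br → Prop
  | refl (s : Br) : CEq s s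
  | symm {s t : Br} : CEq s t → CEq t s
  | trans {s t r : Br} : CEq s t → CEq t r → CEq s r
  | comm (s t : Br) : CEq (.node s t) (.node t s)
  | congr {s s' t t' : Br} : CEq s s' → CEq t t' → CEq (.node s t) (.node s' t')

/-- The equivalence relation on bracket structures generated, inside any bracket structure, by
`uv = vu` and by the exchanges `(ab)c = (ac)b` in which `b` and `c` have at most as many letters
as `a`. -/
inductive Exch : Br → Br → Prop
  | refl (s : Br) : Exch s s
  | symm {s t : Br} : Exch s t → Exch t s
  | trans {s t r : Br} : Exch s t → Exch t r → Exch s r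
  | comm (s t : Br) : Exch (.node s t) (.node t s)
  | congr {s s' t t' : Br} : Exch s s' → Exch t t' → Exch (.node s t) (.node s' t')
  | exch (a b c : Br) : b.deg ≤ a.deg → c.deg ≤ a.deg →
      Exch (.node (.node a b) c) (.node (.node a c) b)

/-- The two factors at the root have the same degrees. -/
def SameRoot : Br → Br → Prop
  | .leaf, .leaf => True
  | .node a b, .node c d => (a.deg = c.deg ∧ b.deg = d.deg) ∨ (a.deg = d.deg ∧ b.deg = c.deg)
  | _, _ => False

/-- No node of the bracket structure has a lighter branch with exactly `m` letters. -/
def NoLight (m : ℕ) : Br → Prop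
  | .leaf => True
  | .node l r => min l.deg r.deg ≠ m ∧ NoLight m l ∧ NoLight m r

/-- The class: structures determined, up to commutativity, by light exchanges and root degrees;
products of two members of the class of equal degree; and products `ab`, `deg b < deg a`, where `a`
is determined up to commutativity by light exchanges, no node of `a` has a lighter branch with
exactly `deg b` letters, and `b` is in the class. -/
inductive Settled : Br → Prop
  | base (s : Br) : (∀ t, Exch s t → SameRoot s t → CEq s t) → Settled s
  | node (a b : Br) : a.deg = b.deg → Settled a → Settled b → Settled (.node a b)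
  | light (a b : Br) : b.deg < a.deg → NoLight b.deg a → (∀ t, Exch a t → CEq a t) →
      Settled b → Settled (.node a b)

open Pool.Agent.R192

/-- translation to the helper files -/
def conv : Br → LM.Br
  | .leaf => .leaf
  | .node l r => .node (conv l) (conv r)

/-- translation from the helper files -/
def vnoc : LM.Br → Br
  | .leaf => .leaf
  | .node l r => .node (vnoc l) (vnoc r)

lemma vnoc_conv (s : Br) : vnoc (conv s) = s := by
  induction s with
  | leaf => rfl
  | node l r hl hr => simp only [conv, vnoc, hl, hr]

lemma deg_conv (s : Br) : (conv s).deg = s.deg := by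
  induction s with
  | leaf => rfl
  | node l r hl hr => simp only [conv, LM.Br.deg, Br.deg, hl, hr]

lemma deg_vnoc (s : LM.Br) : (vnoc s).deg = s.deg := by
  induction s with
  | leaf => rfl
  | node l r hl hr => simp only [vnoc, LM.Br.deg, Br.deg, hl, hr]

lemma ev_conv {A : Type*} [Bracket A A] (s : Br) : ∀ x : ℕ → A, (conv s).ev x = s.ev x := by
  induction s with
  | leaf => intro x; rfl
  | node l r hl hr => intro x; simp only [conv, LM.Br.ev, Br.ev, hl, hr, deg_conv]

lemma holds_conv (A : Type*) [LieRing A] (s : Br) : LM.Holds A (conv s) ↔ Holds A s := by
  simp only [LM.Holds, Holds, ev_conv]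

lemma exch_of {s t : LM.Br} (h : LM.Ex s t) : Exch (vnoc s) (vnoc t) := by
  induction h with
  | refl s => exact Exch.refl _
  | symm _ ih => exact ih.symm
  | trans _ _ ih1 ih2 => exact ih1.trans ih2
  | comm s t => exact Exch.comm _ _
  | congr _ _ ih1 ih2 => exact Exch.congr ih1 ih2
  | exch a b c h1 h2 =>
    exact Exch.exch _ _ _ (by rw [deg_vnoc, deg_vnoc]; exact h1) (by rw [deg_vnoc, deg_vnoc]; exact h2)

lemma noB_conv (m : ℕ) (s : Br) (h : NoLight m s) : LM.NoB m (conv s) := by
  induction s with
  | leaf => trivial
  | node l r hl hr =>
    refine ⟨?_, hl h.2.1, hr h.2.2⟩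
    rw [deg_conv, deg_conv]
    exact h.1

lemma deg_pos' (s : Br) : 1 ≤ s.deg := by
  induction s with
  | leaf => simp [Br.deg]
  | node l r hl hr => simp only [Br.deg]; omega

lemma sameRoot_of {s t : Br} (h : LM.TE (conv s) (conv t)) : SameRoot s t := by
  have hd := h.1
  rw [deg_conv, deg_conv] at hd
  cases s with
  | leaf =>
    cases t with
    | leaf => trivial
    | node c d =>
      exfalso
      have h1 := deg_pos' c
      have h2 := deg_pos' d
      simp only [Br.deg] at hd
      omega
  | node a b =>
    cases t with
    | leaf =>
      exfalso
      have h1 := deg_pos' a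
      have h2 := deg_pos' b
      simp only [Br.deg] at hd
      omega
    | node c d =>
      simp only [conv] at h
      have := LM.root_deg' h
      rw [deg_conv, deg_conv, deg_conv, deg_conv] at this
      exact this

lemma settled_te {s : Br} (hs : Settled s) : ∀ t, LM.TE (conv s) (conv t) → CEq s t := by
  induction hs with
  | base s hs =>
    intro t h
    have h1 := exch_of (LM.ex_of_te h)
    rw [vnoc_conv, vnoc_conv] at h1
    exact hs t h1 (sameRoot_of h)
  | node a b hab _ _ iha ihb =>
    intro t h
    have hd := h.1
    rw [deg_conv, deg_conv] at hd
    cases t with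
    | leaf =>
      exfalso
      have h1 := deg_pos' a
      have h2 := deg_pos' b
      simp only [Br.deg] at hd
      omega
    | node c d =>
      simp only [conv] at h
      rcases LM.te_factors h (by rw [deg_conv, deg_conv]; exact hab) with ⟨h1, h2⟩ | ⟨h1, h2⟩
      · exact CEq.congr (iha c h1) (ihb d h2)
      · exact (CEq.congr (iha d h1) (ihb c h2)).trans (CEq.comm d c)
  | light a b hab hN ha _ ihb =>
    intro t h
    have hd := h.1
    rw [deg_conv, deg_conv] at hd
    cases t with
    | leaf =>
      exfalso
      have h1 := deg_pos' a
      have h2 := deg_pos' b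
      simp only [Br.deg] at hd
      omega
    | node c d =>
      simp only [conv] at h
      rcases LM.te_light h (by rw [deg_conv, deg_conv]; exact hab)
        (by rw [deg_conv]; exact noB_conv _ _ hN) with ⟨h1, h2⟩ | ⟨h1, h2⟩
      · have h3 := exch_of h1
        rw [vnoc_conv, vnoc_conv] at h3
        exact CEq.congr (ha c h3) (ihb d h2)
      · have h3 := exch_of h1
        rw [vnoc_conv, vnoc_conv] at h3
        exact (CEq.congr (ha d h3) (ihb c h2)).trans (CEq.comm d c)

/-- For a bracket structure `s` of the class `Settled` and any bracket structure `t` of the same
degree: if the multilinear Lie monomial identities of `s` and `t` are equivalent over the field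
`K`, then `s` and `t` are equal in the free commutative groupoid on one letter. -/
theorem result (K : Type u) [Field K] (s t : Br) (hs : Settled s) (hd : s.deg = t.deg)
    (h : EquivId K s t) : CEq s t := by
  have h1 : LM.EquivId K (conv s) (conv t) := by
    intro A _ _
    rw [holds_conv, holds_conv]
    exact h A
  exact settled_te hs t (LM.te_of_equiv K h1 (by rw [deg_conv, deg_conv, hd]))

end Pool.Agent.Results.MP_5ecbac_al.ZSettledClass
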